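import Mathlib
import Pool.Agent.Helper467_LV.Guide
import Pool.Agent.Helper467_LV.Transfer

set_option autoImplicit false

/-!
# MP_5f86f1_lc, Q1: it is consistent that `𝔡 ≤ 𝔯` and that `X × X` is Menger for every Scheepers
set of reals `X`

The first part says that two combinatorial statements, the guiding principle and the existence of a
scale, are forced by a notion of forcing `P`, which exists outright: `P` is a form of the iteration,
with countable supports, of Laver forcing along the ordinals below `(2 ^ 𝔠)⁺`
(`Pool.Agent.Helper467_LV.GG`). See `Pool.Agent.Helper467_LV.Defs` for the two statements about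
actual objects, `Pool.Agent.Helper467_LV.Sent` for the same statements in the forcing language, and
`Pool.Agent.Helper126.Sus.Forc` for the forcing language.

The second part is a theorem about actual objects: whenever the guiding principle holds for some
`W`, `N`, `c`, `b`, and there is a scale, then `𝔡 ≤ 𝔯`, and the square of every Scheepers set of
reals is Menger. So the statement of Q1 is not provable in ZFC.
-/

namespace Pool.Agent.Results.MP_5f86f1_lc.ConsistentlyNo

open Pool.Agent.Helper467_LV Pool.Agent.Helper126.Sus.Forc

/-- (1) There are a notion of forcing `P` (a nonempty preordered set), a set `W`, a linearly ordered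
set `K`, functions `N` and `c`, and names `b` and `g` such that every condition forces the guiding
principle for `N`, `c`, `b` and that `g` is a scale indexed by `K`. (2) If the guiding principle
holds for `W`, `N`, `c`, `b`, and `g` is a scale indexed by `K`, then `𝔡 ≤ 𝔯`, and `X × X` is Menger
for every Scheepers set `X` of reals. -/
theorem result :
    (∃ (P : Type) (_ : Preorder P) (W K : Type) (_ : LinearOrder K) (N : W → List ℕ → ℕ)
      (c : W → ℕ) (b : W → List ℕ → ℕ → ℕ → Set P) (g : K → ℕ → ℕ → Set P),
      Nonempty P ∧ ∀ p : P, p ∈ fand (GuidingN N c b) (ScaleN g)) ∧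
    (∀ (W K : Type) (_ : LinearOrder K) (N : W → List ℕ → ℕ) (c : W → ℕ)
      (b : W → List ℕ → ℕ → ℕ → Prop) (g : K → ℕ → ℕ), Guiding W N c b → Scale K g →
      DLeR ∧ ∀ X : Set ℝ, IsScheepers X → IsMenger (X ×ˢ X)) :=
  ⟨⟨GG II, inferInstance, Wd, II, inferInstance, Nw, cw, bw, gen, ⟨1⟩,
      fun p => ⟨guiding_forced p, scale_forced exists_bound_countable p⟩⟩,
    fun _ _ _ _ _ _ _ hG hS => ⟨dLeR_of_scale hS, fun _ hX => isMenger_sq_of_guiding hG hX⟩⟩

end Pool.Agent.Results.MP_5f86f1_lc.ConsistentlyNo
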