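import Pool.Agent.Helper467_Sch.Fin

/-!
# Scheepers sets with a non-Menger square when `cov(M) = 𝔡` is regular

If `𝔡` is regular and `𝔡 ≤ cov(M)`, then there are a nonprincipal ultrafilter `p` on `ℕ` and a set
of reals `X` which is Menger along `p` (so every sequence of open covers of `X` has finite pieces
such that each point of `X` is covered by `p`-many of them; in particular `X` is Scheepers), but
whose square is not Menger. Since `cov(M) ≤ 𝔯`, this is a case of the question whether `𝔡 ≤ 𝔯`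
suffices.

The set consists of the finitely supported points of the Cantor space and of two points `x β`,
`y β` for each `β < 𝔡`. The points `x β` and `y β` agree exactly on a sparse set, which depends on
the `β`-th member of a dominating family, so the square is not Menger. Both points have, at many
places, gaps of a prescribed length soon after these places, and the sets of these places generate
a filter along which the set is Menger.
-/

set_option autoImplicit false

namespace Pool.Agent.Results.MP_5f86f1_lc.CovMeagreEqD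

open Set Filter Cardinal Pool.Agent.Helper467_Sch Pool.Agent.H381R3.LP Pool.Agent.H752R3

/-- The least cardinality of a family of meagre sets covering the Cantor space. -/
noncomputable def covM : Cardinal.{0} :=
  sInf {κ | ∃ A : Set (Set (ℕ → Bool)), (∀ M ∈ A, IsMeagre M) ∧ ⋃₀ A = Set.univ ∧ #A = κ}

/-- The least cardinality of a dominating family of functions. -/
noncomputable def domD : Cardinal.{0} :=
  sInf {κ | ∃ A : Set (ℕ → ℕ), (∀ g : ℕ → ℕ, ∃ f ∈ A, ∀ᶠ n in atTop, g n ≤ f n) ∧ #A = κ}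

/-- The Menger property of the subspace `X` of `Y`. -/
def MengerSet {Y : Type} [TopologicalSpace Y] (X : Set Y) : Prop :=
  ∀ U : ℕ → Set (Set Y), (∀ n, (∀ u ∈ U n, IsOpen u) ∧ X ⊆ ⋃₀ U n) →
    ∃ F : ℕ → Set (Set Y), (∀ n, F n ⊆ U n ∧ (F n).Finite) ∧ X ⊆ ⋃ n, ⋃₀ F n

/-- The Scheepers property of the subspace `X` of `Y`. -/
def ScheepersSet {Y : Type} [TopologicalSpace Y] (X : Set Y) : Prop :=
  ∀ U : ℕ → Set (Set Y), (∀ n, (∀ u ∈ U n, IsOpen u) ∧ X ⊆ ⋃₀ U n) →
    ∃ F : ℕ → Set (Set Y), (∀ n, F n ⊆ U n ∧ (F n).Finite) ∧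
      ∀ G : Set Y, G.Finite → G ⊆ X → ∃ n, G ⊆ ⋃₀ F n

/-- The Menger property of the subspace `X` of `Y` along the ultrafilter `p`. -/
def UltraMengerSet {Y : Type} [TopologicalSpace Y] (p : Ultrafilter ℕ) (X : Set Y) : Prop :=
  ∀ U : ℕ → Set (Set Y), (∀ n, (∀ u ∈ U n, IsOpen u) ∧ X ⊆ ⋃₀ U n) →
    ∃ F : ℕ → Set (Set Y), (∀ n, F n ⊆ U n ∧ (F n).Finite) ∧
      ∀ x ∈ X, {n | x ∈ ⋃₀ F n} ∈ p

theorem covK_domD (hd : domD ≤ covM) : CovK domD := by
  intro ι M hι hM hU
  have h1 : #(range M) ∈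
      {κ | ∃ A : Set (Set (ℕ → Bool)), (∀ M ∈ A, IsMeagre M) ∧ ⋃₀ A = Set.univ ∧ #A = κ} := by
    refine ⟨range M, ?_, ?_, rfl⟩
    · rintro _ ⟨i, rfl⟩
      exact hM i
    · rw [sUnion_range]
      exact hU
  have h2 : covM ≤ #(range M) := csInf_le' h1
  exact absurd (hd.trans (h2.trans Cardinal.mk_range_le)) (not_le.2 hι)

theorem exists_dominating : ∃ A : Set (ℕ → ℕ),
    (∀ g : ℕ → ℕ, ∃ f ∈ A, ∀ᶠ n in atTop, g n ≤ f n) ∧ #A = domD := by
  have h : domD ∈
      {κ | ∃ A : Set (ℕ → ℕ), (∀ g : ℕ → ℕ, ∃ f ∈ A, ∀ᶠ n in atTop, g n ≤ f n) ∧ #A = κ} := by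
    apply csInf_mem
    exact ⟨_, Set.univ, fun g => ⟨g, Set.mem_univ _, Eventually.of_forall fun n => le_rfl⟩, rfl⟩
  exact h

theorem aleph0_lt_domD : ℵ₀ < domD := by
  obtain ⟨A, hA, hAc⟩ := exists_dominating
  by_contra hcon
  rw [← hAc, not_lt, Cardinal.mk_le_aleph0_iff] at hcon
  have hc : A.Countable := hcon
  obtain ⟨f0, hf0, -⟩ := hA fun _ => 0
  obtain ⟨v, hv⟩ := hc.exists_eq_range ⟨f0, hf0⟩
  obtain ⟨f, hf, hfn⟩ := hA fun n => ∑ k ∈ Finset.range (n + 1), v k n + 1
  rw [hv] at hf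
  obtain ⟨k, rfl⟩ := hf
  obtain ⟨n, hn, hkn⟩ := (hfn.and (eventually_ge_atTop k)).exists
  have h1 : v k n ≤ ∑ k ∈ Finset.range (n + 1), v k n :=
    Finset.single_le_sum (f := fun k => v k n) (fun _ _ => Nat.zero_le _)
      (Finset.mem_range.2 (by omega))
  omega

/-- **If `𝔡` is regular and `𝔡 ≤ cov(M)`, then some set of reals is Menger along a nonprincipal
ultrafilter, hence Scheepers, but has a square which is not Menger.** -/
theorem result (hd : domD ≤ covM) (hr : domD.IsRegular) :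
    ∃ (p : Ultrafilter ℕ) (X : Set ℝ), (p : Filter ℕ) ≤ cofinite ∧
      UltraMengerSet p X ∧ ScheepersSet X ∧ ¬ MengerSet (X ×ˢ X) := by
  classical
  obtain ⟨A, hA, hAc⟩ := exists_dominating
  have h0 := aleph0_lt_domD
  have hcard : #(A × ℕ) ≤ #(KO domD) := by
    rw [Cardinal.mk_prod, Cardinal.lift_id, Cardinal.lift_id, hAc, Cardinal.mk_ord_toType]
    exact (Cardinal.mul_le_max_of_aleph0_le_left h0.le).trans
      (max_le le_rfl (by simpa using h0.le))
  obtain ⟨g⟩ := (Cardinal.le_def _ _).1 hcard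
  obtain ⟨f0, hf0, -⟩ := hA fun _ => 0
  have : Nonempty (A × ℕ) := ⟨(⟨f0, hf0⟩, 0)⟩
  have hs := Function.invFun_surjective g.injective
  let nice : A × ℕ → ℕ → ℕ := fun q n => (∑ i ∈ Finset.range (n + 1), q.1.1 i) + q.2 + n + 1
  have hnice : ∀ q, Nice (nice q) := by
    intro q
    refine ⟨fun m n hmn => ?_, fun n => ?_⟩
    · have : (∑ i ∈ Finset.range (m + 1), q.1.1 i) ≤ ∑ i ∈ Finset.range (n + 1), q.1.1 i :=
        Finset.sum_le_sum_of_subset (Finset.range_mono (by omega))
      simp only [nice]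
      omega
    · simp only [nice]
      omega
  obtain ⟨p, X, h1, h2, h3⟩ := main hr h0 (covK_domD hd) (fun a => nice (Function.invFun g a))
    (fun a => hnice _) (by
      intro h
      obtain ⟨f, hf, hfh⟩ := hA h
      obtain ⟨N, hN⟩ := eventually_atTop.1 hfh
      obtain ⟨a, ha⟩ := hs (⟨f, hf⟩, ∑ i ∈ Finset.range N, h i)
      refine ⟨a, fun n => ?_⟩
      simp only [ha, nice]
      by_cases hn : N ≤ n
      · have h4 := hN n hn
        have h5 : f n ≤ ∑ i ∈ Finset.range (n + 1), f i :=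
          Finset.single_le_sum (f := f) (fun _ _ => Nat.zero_le _)
            (Finset.mem_range.2 (by omega))
        omega
      · have h5 : h n ≤ ∑ i ∈ Finset.range N, h i :=
          Finset.single_le_sum (f := h) (fun _ _ => Nat.zero_le _)
            (Finset.mem_range.2 (by omega))
        omega)
  refine ⟨p, X, h1, h2, ?_, h3⟩
  exact IsMengerAlong.isScheepers h2

end Pool.Agent.Results.MP_5f86f1_lc.CovMeagreEqD
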